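import Pool.Agent.TH852.SP.Stmts

/-!
VS-PR (job 5430): the prime ideals of a surface and of its plane section.
-/

set_option autoImplicit false

namespace Pool.Agent.TH736.VS

open MvPolynomial Pool.Agent.W607 Pool.Agent.TH852.SP

/-- the images of the variables under `res t a b` -/
noncomputable def vv (t a b : ℂ) : Fin (3 + 1) → R3 :=
  ![X 0, X 1, X 2, C t * X 0 + C a * X 1 + C b * X 2]

theorem res_eq (t a b : ℂ) : res t a b = aeval (vv t a b) := rfl

theorem vv_hom (t a b : ℂ) (i : Fin (3 + 1)) : (vv t a b i).IsHomogeneous 1 := by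
  have h : ∀ (c : ℂ) (j : Fin 3), (C c * X j : R3).IsHomogeneous 1 := by
    intro c j
    have := (isHomogeneous_C (Fin 3) c).mul (isHomogeneous_X ℂ j)
    rwa [zero_add] at this
  fin_cases i
  · exact isHomogeneous_X _ _
  · exact isHomogeneous_X _ _
  · exact isHomogeneous_X _ _
  · exact ((h t 0).add (h a 1)).add (h b 2)

theorem pl_hom (t a b : ℂ) : (pl t a b).IsHomogeneous 1 := by
  have h : ∀ (c : ℂ) (j : Fin (3 + 1)), (C c * X j : R4).IsHomogeneous 1 := by
    intro c j
    have := (isHomogeneous_C (Fin (3 + 1)) c).mul (isHomogeneous_X ℂ j)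
    rwa [zero_add] at this
  exact (isHomogeneous_X _ _).sub (((h t 0).add (h a 1)).add (h b 2))

/-- the inclusion of the polynomials in the first three variables -/
noncomputable def inc : R3 →ₐ[ℂ] R4 := aeval ![X 0, X 1, X 2]

theorem res_pl (t a b : ℂ) : res t a b (pl t a b) = 0 := by
  simp [res, pl, algebraMap_eq]

theorem res_inc (t a b : ℂ) (g : R3) : res t a b (inc g) = g := by
  have h : (res t a b).comp inc = AlgHom.id ℂ R3 := by
    apply MvPolynomial.algHom_ext
    intro i
    fin_cases i <;> simp [res, inc]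
  exact congrArg (fun f : R3 →ₐ[ℂ] R3 => f g) h

theorem sub_mem (t a b : ℂ) (f : R4) : f - inc (res t a b f) ∈ Ideal.span {pl t a b} := by
  have h : (Ideal.Quotient.mkₐ ℂ (Ideal.span {pl t a b})).comp (inc.comp (res t a b)) =
      Ideal.Quotient.mkₐ ℂ (Ideal.span {pl t a b}) := by
    apply MvPolynomial.algHom_ext
    intro i
    fin_cases i
    · simp [res, inc]
    · simp [res, inc]
    · simp [res, inc]
    · have e : inc (res t a b (X 3)) = C t * X 0 + C a * X 1 + C b * X 2 := by
        simp [res, inc, algebraMap_eq]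
      show Ideal.Quotient.mk _ (inc (res t a b (X 3))) = Ideal.Quotient.mk _ (X 3)
      rw [e, eq_comm, Ideal.Quotient.eq]
      exact Ideal.mem_span_singleton_self _
  have h2 := congrArg (fun g : R4 →ₐ[ℂ] _ => g f) h
  have h3 : Ideal.Quotient.mk (Ideal.span {pl t a b}) (inc (res t a b f)) =
      Ideal.Quotient.mk (Ideal.span {pl t a b}) f := h2
  exact Ideal.Quotient.eq.1 h3.symm

theorem mem_of_res (t a b : ℂ) {f : R4} (h : res t a b f = 0) : f ∈ Ideal.span {pl t a b} := by
  have := sub_mem t a b f
  rwa [h, map_zero, sub_zero] at this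

theorem totalDegree_res_le (t a b : ℂ) (f : R4) :
    (res t a b f).totalDegree ≤ f.totalDegree := by
  rw [res_eq]
  conv_lhs => rw [f.as_sum, map_sum]
  refine (totalDegree_finsetSum _ _).trans (Finset.sup_le fun α hα => ?_)
  rw [aeval_monomial, algebraMap_eq]
  refine (totalDegree_mul _ _).trans ?_
  rw [totalDegree_C, zero_add]
  refine (totalDegree_finsetProd _ _).trans ?_
  refine le_trans ?_ (le_totalDegree hα)
  refine Finset.sum_le_sum fun i _ => ?_
  refine (totalDegree_pow _ _).trans ?_
  exact (Nat.mul_le_mul_left _ (vv_hom t a b i).totalDegree_le).trans (by rw [mul_one])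

theorem hmg_span {n d : ℕ} {F : MvPolynomial (Fin (n + 1)) ℂ} (hF : F.IsHomogeneous d) :
    Hmg (Ideal.span {F}) := by
  classical
  intro f hf t
  obtain ⟨g, rfl⟩ := Ideal.mem_span_singleton'.1 hf
  rw [← g.sum_homogeneousComponent, Finset.sum_mul, map_sum]
  refine Ideal.sum_mem _ fun i _ => ?_
  have h1 : (homogeneousComponent i g * F).IsHomogeneous (i + d) :=
    (homogeneousComponent_isHomogeneous i g).mul hF
  rw [homogeneousComponent_of_mem h1]
  split_ifs
  · exact Ideal.mul_mem_left _ _ (Ideal.mem_span_singleton_self _)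
  · exact Ideal.zero_mem _

theorem hmg_sup {n : ℕ} {I J : Ideal (MvPolynomial (Fin (n + 1)) ℂ)} (hI : Hmg I) (hJ : Hmg J) :
    Hmg (I ⊔ J) := by
  intro f hf t
  obtain ⟨u, hu, v, hv, rfl⟩ := Submodule.mem_sup.1 hf
  rw [map_add]
  exact Submodule.add_mem_sup (hI u hu t) (hJ v hv t)

theorem t_PR : S_PR := by
  intro d F t a b hF hirr
  have hres0 : res t a b F ≠ 0 := hirr.ne_zero
  have hF0 : F ≠ 0 := by
    rintro rfl
    exact hres0 (map_zero _)
  have hresh : (res t a b F).IsHomogeneous d := by
    have := hF.aeval (vv t a b) (vv_hom t a b)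
    rwa [one_mul] at this
  have hdF : F.totalDegree = d := hF.totalDegree hF0
  have hdres : (res t a b F).totalDegree = d := hresh.totalDegree hres0
  have hnu : ¬ IsUnit F := fun h => hirr.not_isUnit (h.map (res t a b))
  -- a factor of `F` with invertible restriction is invertible
  have key : ∀ G H : R4, F = G * H → IsUnit (res t a b G) → IsUnit G := by
    intro G H hGH hu
    have hG0 : G ≠ 0 := by
      rintro rfl
      exact hF0 (by rw [hGH, zero_mul])
    have hH0 : H ≠ 0 := by
      rintro rfl
      exact hF0 (by rw [hGH, mul_zero])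
    have hr : res t a b F = res t a b G * res t a b H := by rw [hGH, map_mul]
    have hrG0 : res t a b G ≠ 0 := by
      intro h
      exact hres0 (by rw [hr, h, zero_mul])
    have hrH0 : res t a b H ≠ 0 := by
      intro h
      exact hres0 (by rw [hr, h, mul_zero])
    have h1 : G.totalDegree + H.totalDegree = d := by
      rw [← hdF, hGH, totalDegree_mul_of_isDomain hG0 hH0]
    have h2 : (res t a b G).totalDegree + (res t a b H).totalDegree = d := by
      rw [← hdres, hr, totalDegree_mul_of_isDomain hrG0 hrH0]
    have h3 : (res t a b G).totalDegree = 0 := by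
      obtain ⟨K, hK⟩ := isUnit_iff_exists_inv.1 hu
      have hK0 : K ≠ 0 := by
        rintro rfl
        rw [mul_zero] at hK
        exact zero_ne_one hK
      have h4 := totalDegree_mul_of_isDomain hrG0 hK0
      rw [hK, totalDegree_one] at h4
      omega
    have h4 := totalDegree_res_le t a b G
    have h5 := totalDegree_res_le t a b H
    have h6 : G.totalDegree = 0 := by omega
    rw [totalDegree_eq_zero_iff_eq_C] at h6
    rw [h6]
    refine IsUnit.map C (isUnit_iff_ne_zero.2 ?_)
    intro h7
    apply hG0
    rw [h6, h7, map_zero]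
  have hFirr : Irreducible F := by
    refine ⟨hnu, ?_⟩
    intro G H hGH
    have hr : res t a b F = res t a b G * res t a b H := by rw [hGH, map_mul]
    rcases hirr.isUnit_or_isUnit hr with h | h
    · exact Or.inl (key G H hGH h)
    · exact Or.inr (key H G (by rw [hGH, mul_comm]) h)
  have hcomap : Ideal.span {F} ⊔ Ideal.span {pl t a b} =
      Ideal.comap (res t a b) (Ideal.span {res t a b F}) := by
    apply le_antisymm
    · refine sup_le ?_ ?_
      · rw [Ideal.span_singleton_le_iff_mem, Ideal.mem_comap]
        exact Ideal.mem_span_singleton_self _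
      · rw [Ideal.span_singleton_le_iff_mem, Ideal.mem_comap, res_pl]
        exact Ideal.zero_mem _
    · intro f hf
      rw [Ideal.mem_comap] at hf
      obtain ⟨g, hg⟩ := Ideal.mem_span_singleton'.1 hf
      have h1 : f - inc g * F ∈ Ideal.span {pl t a b} := by
        apply mem_of_res
        rw [map_sub, map_mul, res_inc, hg, sub_self]
      have h2 : f = inc g * F + (f - inc g * F) := by ring
      rw [h2]
      exact Submodule.add_mem_sup
        (Ideal.mul_mem_left _ _ (Ideal.mem_span_singleton_self _)) h1
  refine ⟨?_, hmg_span hF, ?_, hmg_sup (hmg_span hF) (hmg_span (pl_hom t a b)), ?_⟩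
  · rw [Ideal.span_singleton_prime hF0]
    exact hFirr.prime
  · rw [hcomap]
    have h1 : (Ideal.span {res t a b F}).IsPrime := by
      rw [Ideal.span_singleton_prime hres0]
      exact hirr.prime
    exact Ideal.comap_isPrime _ _
  · intro hmem
    obtain ⟨h, hh⟩ := Ideal.mem_span_singleton'.1 hmem
    have h1 : res t a b h = 0 := by
      have h2 : res t a b h * res t a b F = 0 := by rw [← map_mul, hh, res_pl]
      rcases mul_eq_zero.1 h2 with h3 | h3
      · exact h3
      · exact absurd h3 hres0
    obtain ⟨k, hk⟩ := Ideal.mem_span_singleton'.1 (mem_of_res t a b h1)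
    have hpl0 : pl t a b ≠ 0 := by
      intro h0
      have h2 := congrArg (eval (fun i : Fin (3 + 1) => if i = 3 then (1 : ℂ) else 0)) h0
      simp [pl] at h2
    have h4 : (k * F) * pl t a b = 1 * pl t a b := by
      rw [one_mul]
      calc k * F * pl t a b = k * pl t a b * F := by ring
        _ = h * F := by rw [hk]
        _ = pl t a b := hh
    have h5 : k * F = 1 := mul_right_cancel₀ hpl0 h4
    exact hnu (IsUnit.of_mul_eq_one k (by rw [mul_comm]; exact h5))

end Pool.Agent.TH736.VS
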